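import Pool.Agent.H79.MC.Targets2

set_option autoImplicit false

namespace Pool.Agent.H35.MC

open Pool.Agent.H79.MC

/-- the blocks of bits below `m q` do not change when a multiple of `2 ^ (m q)` is added -/
theorem digit_add (m q g d t : ℕ) (ht : t < q) :
    (g + 2 ^ (m * q) * d) / 2 ^ (m * t) % 2 ^ m = g / 2 ^ (m * t) % 2 ^ m := by
  obtain ⟨k, hk⟩ : ∃ k, q = t + 1 + k := ⟨q - (t + 1), by omega⟩
  have e : 2 ^ (m * q) * d = 2 ^ (m * t) * (2 ^ m * (2 ^ (m * k) * d)) := by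
    rw [hk, mul_add, mul_add, mul_one, pow_add, pow_add]
    ring
  rw [e, Nat.add_mul_div_left _ _ (by positivity), Nat.add_mul_mod_self_left]

theorem pf_enc : T_ENC := by
  intro a q p e hp he
  have key : ∀ q : ℕ, ∃ g < 2 ^ ((a + 1) * q), ∀ t < q,
      g / 2 ^ ((a + 1) * t) % 2 ^ (a + 1) = p t + 2 ^ a * e t := by
    intro q
    induction q with
    | zero => exact ⟨0, by simp, fun t ht => absurd ht (Nat.not_lt_zero t)⟩
    | succ q ih =>
      obtain ⟨g, hg, h⟩ := ih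
      have hd : p q + 2 ^ a * e q < 2 ^ (a + 1) := by
        have h1 := hp q
        have h2 : 2 ^ a * e q ≤ 2 ^ a * 1 := Nat.mul_le_mul_left _ (he q)
        rw [pow_succ]
        omega
      refine ⟨g + 2 ^ ((a + 1) * q) * (p q + 2 ^ a * e q), ?_, fun t ht => ?_⟩
      · rw [mul_add (a + 1) q 1, mul_one, pow_add]
        have h3 : 2 ^ ((a + 1) * q) * (p q + 2 ^ a * e q + 1) ≤
            2 ^ ((a + 1) * q) * 2 ^ (a + 1) := Nat.mul_le_mul_left _ hd
        rw [mul_add, mul_one] at h3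
        omega
      · rcases Nat.lt_succ_iff_lt_or_eq.1 ht with h4 | rfl
        · rw [digit_add (a + 1) q g _ t h4, h t h4]
        · rw [Nat.add_mul_div_left _ _ (by positivity), Nat.div_eq_of_lt hg, zero_add,
            Nat.mod_eq_of_lt hd]
  obtain ⟨g, hg, h⟩ := key q
  refine ⟨g, hg, fun t ht => ?_⟩
  have h1 := h t ht
  have hb : bPos a g t = p t := by
    unfold bPos
    have h2 : g / 2 ^ ((a + 1) * t) % 2 ^ a = g / 2 ^ ((a + 1) * t) % 2 ^ (a + 1) % 2 ^ a :=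
      (Nat.mod_mod_of_dvd _ (pow_dvd_pow 2 (Nat.le_succ a))).symm
    rw [h2, h1, Nat.add_mul_mod_self_left, Nat.mod_eq_of_lt (hp t)]
  refine ⟨hb, ?_⟩
  have h3 : g / 2 ^ ((a + 1) * t) / 2 ^ a % 2 = e t := by
    have h4 : g / 2 ^ ((a + 1) * t) / 2 ^ a % 2 =
        g / 2 ^ ((a + 1) * t) % (2 ^ a * 2) / 2 ^ a := by
      rw [Nat.mod_mul_right_div_self]
    rw [h4, ← pow_succ, h1, Nat.add_mul_div_left _ _ (by positivity), Nat.div_eq_of_lt (hp t),
      zero_add]
  unfold bSg bits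
  rw [pow_add, ← Nat.div_div_eq_div_mul]
  exact h3

end Pool.Agent.H35.MC
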