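import Pool.Agent.H35.MC.SPL

/-!
Module PLC of MP_5da387_pr: the counts of the cells are independent Poisson variables.
-/

namespace Pool.Agent.H35.MC

open Classical MeasureTheory ProbabilityTheory
open Pool.Agent.H96.MC

noncomputable section

variable {d q : ℕ}

/-- the positions in the cell `v` which give a point of `B` -/
def cellSet (ζ : Fin d → ℝ) (B : Set (Sp d)) (v : Cell d) : Set (Fin d → ℝ) :=
  {u | (WithLp.toLp 2 fun l => ((v l : ℝ) + u l + ζ l) : Sp d) ∈ B}

lemma measurableSet_cellSet (ζ : Fin d → ℝ) {B : Set (Sp d)} (hB : MeasurableSet B) (v : Cell d) :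
    MeasurableSet (cellSet ζ B v) := by
  have hm : Measurable (fun u : Fin d → ℝ =>
      (WithLp.toLp 2 fun l => ((v l : ℝ) + u l + ζ l) : Sp d)) := by
    apply (WithLp.measurable_toLp 2 _).comp
    apply measurable_pi_lambda
    intro l
    exact ((measurable_const.add (measurable_pi_apply l)).add measurable_const)
  exact hm hB

theorem t_PLC (hR : T_RGP) (hU : T_UNI) : T_PLC := by
  intro d q D ζ W m c B hB hd
  haveI := (hU d).1
  -- the sets for a coloured cell
  set A' : CC d q → Fin m → Set (Fin d → ℝ) := fun x j =>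
    if c j = x.2 then cellSet ζ (B j) x.1 else ∅ with hA'
  have hA'm : ∀ x j, MeasurableSet (A' x j) := by
    intro x j
    simp only [hA']
    split_ifs
    · exact measurableSet_cellSet ζ (hB j) _
    · exact MeasurableSet.empty
  have hA'd : ∀ x j j', j ≠ j' → Disjoint (A' x j) (A' x j') := by
    intro x j j' hj
    simp only [hA']
    split_ifs with h1 h2 h2
    · rcases hd j j' hj with h | h
      · exact absurd (h1.trans h2.symm) h
      · rw [Set.disjoint_left]
        intro u hu hu'
        exact (Set.disjoint_left.1 h) hu hu'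
    · simp
    · simp
    · simp
  set P : CC d q → Measure (ℕ × (ℕ → Fin d → ℝ)) := fun x =>
    (poissonMeasure ⟨D.lam x.2, (D.pos x.2).le⟩).prod (Measure.infinitePi fun _ : ℕ => unif d) with hP
  set G : CC d q → (ℕ × (ℕ → Fin d → ℝ)) → (Fin m → ℕ) := fun x z j => hits' (A' x j) z with hG
  have hGm : ∀ x, Measurable (G x) := fun x =>
    measurable_pi_lambda _ fun j => measurable_hits' (hA'm x j)
  have hGl : ∀ x, (P x).map (G x) = Measure.infinitePi fun j =>
      poissonMeasure (⟨D.lam x.2, (D.pos x.2).le⟩ * (unif d (A' x j)).toNNReal) := by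
    intro x
    rw [Measure.infinitePi_eq_pi]
    exact split_disj (unif d) _ m (A' x) (hA'm x) (hA'd x)
  have h1 := hR d q D
  have h2 := Measure.infinitePi_map_pi (μ := P) (f := G) hGm
  have h3 := Measure.infinitePi_map_curry_symm (fun (x : CC d q) (j : Fin m) =>
      poissonMeasure (⟨D.lam x.2, (D.pos x.2).le⟩ * (unif d (A' x j)).toNNReal))
  have hinj : Function.Injective (fun p : W × Fin m => (((p.1.1, c p.2) : CC d q), p.2)) := by
    rintro ⟨v, j⟩ ⟨v', j'⟩ h
    simp only [Prod.mk.injEq] at h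
    obtain ⟨⟨h1, _⟩, h2⟩ := h
    exact Prod.ext (Subtype.ext h1) h2
  have h4 := Measure.map_infinitePi_infinitePi_of_inj
    (P := fun p : CC d q × Fin m =>
      poissonMeasure (⟨D.lam p.1.2, (D.pos p.1.2).le⟩ * (unif d (A' p.1 p.2)).toNNReal))
    (f := fun p : W × Fin m => (((p.1.1, c p.2) : CC d q), p.2)) hinj
  simp only [hGl] at h2
  rw [← h3, ← h2, ← h1] at h4
  have hmZ : Measurable (fun (w : Cfg d q × (Pt d q → Fin d → ℝ)) (x : CC d q) =>
      (w.1 x, fun k : ℕ => w.2 (x, k))) := by
    apply measurable_pi_lambda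
    intro x
    apply Measurable.prodMk
    · exact (measurable_pi_apply x).comp measurable_fst
    · apply measurable_pi_lambda
      intro k
      exact (measurable_pi_apply (x, k)).comp measurable_snd
  have hmG : Measurable (fun (z : CC d q → ℕ × (ℕ → Fin d → ℝ)) x => G x (z x)) :=
    measurable_pi_lambda _ fun x => (hGm x).comp (measurable_pi_apply x)
  rw [Measure.map_map hmG hmZ, Measure.map_map (MeasurableEquiv.measurable _) (hmG.comp hmZ),
    Measure.map_map (measurable_pi_lambda _ fun p => measurable_pi_apply _)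
      ((MeasurableEquiv.measurable _).comp (hmG.comp hmZ))] at h4
  rw [← Measure.infinitePi_eq_pi]
  have e1 : (fun (w : Cfg d q × (Pt d q → Fin d → ℝ)) (p : W × Fin m) =>
      ctW ζ (c p.2) (B p.2) {p.1.1} w) =
      ((fun (ω : CC d q × Fin m → ℕ) (i : W × Fin m) => ω (((i.1.1, c i.2) : CC d q), i.2)) ∘
        ⇑(MeasurableEquiv.curry (CC d q) (Fin m) ℕ).symm ∘
        (fun (z : CC d q → ℕ × (ℕ → Fin d → ℝ)) x => G x (z x)) ∘
        fun (w : Cfg d q × (Pt d q → Fin d → ℝ)) (x : CC d q) => (w.1 x, fun k : ℕ => w.2 (x, k))) := by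
    funext w p
    show ctW ζ (c p.2) (B p.2) {p.1.1} w =
      G (p.1.1, c p.2) (w.1 (p.1.1, c p.2), fun k : ℕ => w.2 ((p.1.1, c p.2), k)) p.2
    simp only [hG, hits', cnt, hA', ctW, Finset.sum_singleton, if_pos]
    rfl
  rw [e1]
  refine h4.trans ?_
  congr 1
  funext p
  simp only [hA', if_pos]
  congr 2
  apply NNReal.eq
  rw [Real.coe_toNNReal _ (D.pos _).le]
  rfl

end

end Pool.Agent.H35.MC
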