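import Mathlib

/-!
Splitting of a Poisson variable (MP_5da387_pr, module SPL): core lemmas.
-/

namespace Pool.Agent.H35.MC

open Classical MeasureTheory ProbabilityTheory

noncomputable section

variable {Y : Type} [MeasurableSpace Y]

/-- number of the first `n` points in `C` -/
def cnt (C : Set Y) (n : ℕ) (U : ℕ → Y) : ℕ := ((Finset.range n).filter fun s => U s ∈ C).card

omit [MeasurableSpace Y] in
lemma cnt_zero (C : Set Y) (U : ℕ → Y) : cnt C 0 U = 0 := by simp [cnt]

omit [MeasurableSpace Y] in
lemma cnt_succ (C : Set Y) (n : ℕ) (U : ℕ → Y) :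
    cnt C (n + 1) U = cnt C n U + (if U n ∈ C then 1 else 0) := by
  unfold cnt
  rw [Finset.range_add_one, Finset.filter_insert]
  split_ifs with h
  · rw [Finset.card_insert_of_notMem (by simp)]
  · rfl

lemma measurable_cnt {C : Set Y} (hC : MeasurableSet C) (n : ℕ) : Measurable (cnt C n) := by
  induction n with
  | zero =>
    have : cnt C 0 = fun _ => 0 := by funext U; exact cnt_zero C U
    rw [this]; exact measurable_const
  | succ n ih =>
    have : cnt C (n + 1) = fun U => cnt C n U + (if U n ∈ C then 1 else 0) := by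
      funext U; exact cnt_succ C n U
    rw [this]
    refine ih.add ?_
    exact Measurable.ite ((measurable_pi_apply n) hC) measurable_const measurable_const

omit [MeasurableSpace Y] in
/-- the count is a function of the first coordinates -/
lemma cnt_eq_restrict (C : Set Y) (n : ℕ) (U : ℕ → Y) :
    cnt C n U = ((Finset.univ : Finset (Finset.range n)).filter
      fun s => (fun i : Finset.range n => U i) s ∈ C).card := by
  unfold cnt
  symm
  apply Finset.card_bij (fun (a : Finset.range n) _ => (a : ℕ))
  · intro a ha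
    simp only [Finset.mem_filter, Finset.mem_univ, true_and] at ha
    simp only [Finset.mem_filter]
    exact ⟨a.2, ha⟩
  · intro a _ b _ h
    exact Subtype.ext h
  · intro b hb
    simp only [Finset.mem_filter] at hb
    exact ⟨⟨b, hb.1⟩, by simp [hb.2], rfl⟩

lemma measurable_cntF {C : Set Y} (hC : MeasurableSet C) (n : ℕ) :
    Measurable (fun x : Finset.range n → Y =>
      ((Finset.univ : Finset (Finset.range n)).filter fun s => x s ∈ C).card) := by
  have : (fun x : Finset.range n → Y =>
      ((Finset.univ : Finset (Finset.range n)).filter fun s => x s ∈ C).card) =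
      fun x => ∑ s : Finset.range n, if x s ∈ C then 1 else 0 := by
    funext x
    rw [Finset.card_filter]
  rw [this]
  apply Finset.measurable_sum
  intro s _
  exact Measurable.ite ((measurable_pi_apply s) hC) measurable_const measurable_const

variable {ι : Type} [Fintype ι]

/-- the next point is independent of the counts of the first `n` points -/
lemma indep_next (ν : Measure Y) [IsProbabilityMeasure ν] (C : ι → Set Y)
    (hC : ∀ i, MeasurableSet (C i)) (n : ℕ) (κ : ι → ℕ) (D : Set Y) (hD : MeasurableSet D) :
    Measure.infinitePi (fun _ : ℕ => ν) ({U | ∀ i, cnt (C i) n U = κ i} ∩ {U | U n ∈ D}) =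
      Measure.infinitePi (fun _ : ℕ => ν) {U | ∀ i, cnt (C i) n U = κ i} * ν D := by
  have h1 : iIndepFun (fun (i : ℕ) (ω : ℕ → Y) => ω i) (Measure.infinitePi (fun _ : ℕ => ν)) :=
    iIndepFun_infinitePi (X := fun _ ω => ω) (fun _ => measurable_id)
  have h2 := h1.indepFun_finset (Finset.range n) {n} (by simp) (fun i => measurable_pi_apply i)
  have h3 := (indepFun_iff_measure_inter_preimage_eq_mul.1 h2)
    {x | ∀ i, ((Finset.univ : Finset (Finset.range n)).filter fun s => x s ∈ C i).card = κ i}
    {x | x ⟨n, by simp⟩ ∈ D} ?_ ?_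
  · have e1 : ((fun (a : ℕ → Y) (i : Finset.range n) => a i) ⁻¹'
        {x | ∀ i, ((Finset.univ : Finset (Finset.range n)).filter fun s => x s ∈ C i).card = κ i}) =
        {U | ∀ i, cnt (C i) n U = κ i} := by
      ext U
      simp only [Set.mem_preimage, Set.mem_ofPred_eq]
      refine forall_congr' fun i => ?_
      rw [cnt_eq_restrict]
    have e2 : ((fun (a : ℕ → Y) (i : ({n} : Finset ℕ)) => a i) ⁻¹'
        {x | x ⟨n, by simp⟩ ∈ D}) = {U | U n ∈ D} := rfl
    rw [e1, e2] at h3
    rw [h3]
    congr 1
    have e3 : {U : ℕ → Y | U n ∈ D} = (fun U => U n) ⁻¹' D := rfl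
    rw [e3, ← Measure.map_apply (measurable_pi_apply n) hD, Measure.infinitePi_map_eval]
  · have : {x : Finset.range n → Y | ∀ i,
        ((Finset.univ : Finset (Finset.range n)).filter fun s => x s ∈ C i).card = κ i} =
        ⋂ i, (fun x : Finset.range n → Y =>
          ((Finset.univ : Finset (Finset.range n)).filter fun s => x s ∈ C i).card) ⁻¹' {κ i} := by
      ext x; simp
    rw [this]
    exact MeasurableSet.iInter fun i => (measurable_cntF (hC i) n) (measurableSet_singleton _)
  · exact (measurable_pi_apply _) hD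

omit [MeasurableSpace Y] in
/-- the counts of a partition add up -/
lemma sum_cnt (C : ι → Set Y) (hd : ∀ i j, i ≠ j → Disjoint (C i) (C j)) (hu : ∀ y, ∃ i, y ∈ C i)
    (n : ℕ) (U : ℕ → Y) : ∑ i, cnt (C i) n U = n := by
  induction n with
  | zero => simp [cnt_zero]
  | succ n ih =>
    simp only [cnt_succ]
    rw [Finset.sum_add_distrib, ih]
    congr 1
    obtain ⟨i, hi⟩ := hu (U n)
    rw [Finset.sum_eq_single i]
    · simp [hi]
    · intro j _ hj
      rw [if_neg]
      intro h
      exact (Set.disjoint_left.1 (hd j i hj)) h hi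
    · simp

/-- recursion for the law of the counts -/
lemma law_succ (ν : Measure Y) [IsProbabilityMeasure ν] (C : ι → Set Y)
    (hC : ∀ i, MeasurableSet (C i)) (hd : ∀ i j, i ≠ j → Disjoint (C i) (C j))
    (hu : ∀ y, ∃ i, y ∈ C i) (n : ℕ) (κ : ι → ℕ) :
    Measure.infinitePi (fun _ : ℕ => ν) {U | ∀ i, cnt (C i) (n + 1) U = κ i} =
      ∑ i, if κ i = 0 then 0 else
        Measure.infinitePi (fun _ : ℕ => ν)
          {U | ∀ j, cnt (C j) n U = Function.update κ i (κ i - 1) j} * ν (C i) := by
  have e : {U : ℕ → Y | ∀ i, cnt (C i) (n + 1) U = κ i} =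
      ⋃ i ∈ (Finset.univ : Finset ι).filter (fun i => κ i ≠ 0),
        ({U | ∀ j, cnt (C j) n U = Function.update κ i (κ i - 1) j} ∩ {U | U n ∈ C i}) := by
    ext U
    simp only [Set.mem_ofPred_eq, Set.mem_iUnion, Finset.mem_filter, Finset.mem_univ, true_and,
      Set.mem_inter_iff, exists_prop]
    constructor
    · intro h
      obtain ⟨i, hi⟩ := hu (U n)
      have h1 := h i
      rw [cnt_succ, if_pos hi] at h1
      refine ⟨i, by omega, ?_, hi⟩
      intro j
      by_cases hj : j = i
      · subst hj
        rw [Function.update_self]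
        omega
      · rw [Function.update_of_ne hj]
        have h2 := h j
        rw [cnt_succ, if_neg (fun h' => (Set.disjoint_left.1 (hd j i hj)) h' hi)] at h2
        simpa using h2
    · rintro ⟨i, hi0, h, hi⟩ j
      rw [cnt_succ, h j]
      by_cases hj : j = i
      · subst hj
        rw [Function.update_self, if_pos hi]
        omega
      · rw [Function.update_of_ne hj, if_neg (fun h' => (Set.disjoint_left.1 (hd j i hj)) h' hi)]
        simp
  rw [e, measure_biUnion_finset]
  · rw [Finset.sum_filter]
    apply Finset.sum_congr rfl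
    intro i _
    by_cases h : κ i = 0
    · simp [h]
    · rw [if_pos h, if_neg h]
      exact indep_next ν C hC n _ (C i) (hC i)
  · intro i _ j _ hij
    rw [Function.onFun, Set.disjoint_left]
    rintro U ⟨_, h1⟩ ⟨_, h2⟩
    exact (Set.disjoint_left.1 (hd i j hij)) h1 h2
  · intro i _
    apply MeasurableSet.inter
    · have : {U : ℕ → Y | ∀ j, cnt (C j) n U = Function.update κ i (κ i - 1) j} =
          ⋂ j, (cnt (C j) n) ⁻¹' {Function.update κ i (κ i - 1) j} := by
        ext U; simp
      rw [this]
      exact MeasurableSet.iInter fun j => (measurable_cnt (hC j) n) (measurableSet_singleton _)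
    · exact (measurable_pi_apply n) (hC i)

/-- the law of the counts is multinomial -/
lemma law_cnt (ν : Measure Y) [IsProbabilityMeasure ν] (C : ι → Set Y)
    (hC : ∀ i, MeasurableSet (C i)) (hd : ∀ i j, i ≠ j → Disjoint (C i) (C j))
    (hu : ∀ y, ∃ i, y ∈ C i) (n : ℕ) : ∀ (κ : ι → ℕ), ∑ i, κ i = n →
    Measure.infinitePi (fun _ : ℕ => ν) {U | ∀ i, cnt (C i) n U = κ i} *
      ∏ i, ((κ i).factorial : ENNReal) = (n.factorial : ENNReal) * ∏ i, (ν (C i)) ^ (κ i) := by
  induction n with
  | zero =>
    intro κ hκ
    have h0 : ∀ i, κ i = 0 := by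
      intro i
      have := (Finset.sum_eq_zero_iff.1 hκ) i (Finset.mem_univ i)
      exact this
    have : {U : ℕ → Y | ∀ i, cnt (C i) 0 U = κ i} = Set.univ := by
      ext U
      simp [cnt_zero, h0]
    rw [this]
    simp [h0]
  | succ n ih =>
    intro κ hκ
    rw [law_succ ν C hC hd hu, Finset.sum_mul]
    have h1 : ∀ i ∈ (Finset.univ : Finset ι), (if κ i = 0 then (0 : ENNReal) else
        Measure.infinitePi (fun _ : ℕ => ν)
          {U | ∀ j, cnt (C j) n U = Function.update κ i (κ i - 1) j} * ν (C i)) *
          ∏ j, ((κ j).factorial : ENNReal) =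
        (κ i : ENNReal) * ((n.factorial : ENNReal) * ∏ j, (ν (C j)) ^ (κ j)) := by
      intro i _
      by_cases h : κ i = 0
      · simp [h]
      rw [if_neg h]
      have hs : ∑ j, Function.update κ i (κ i - 1) j = n := by
        have e1 := Finset.add_sum_erase Finset.univ (Function.update κ i (κ i - 1)) (Finset.mem_univ i)
        have e2 := Finset.add_sum_erase Finset.univ κ (Finset.mem_univ i)
        rw [Function.update_self] at e1
        have e3 : ∑ x ∈ Finset.univ.erase i, Function.update κ i (κ i - 1) x =
            ∑ x ∈ Finset.univ.erase i, κ x := by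
          apply Finset.sum_congr rfl
          intro x hx
          rw [Function.update_of_ne (Finset.ne_of_mem_erase hx)]
        omega
      have h2 := ih _ hs
      have e4 : ∏ j, ((κ j).factorial : ENNReal) =
          (κ i : ENNReal) * ∏ j, (((Function.update κ i (κ i - 1)) j).factorial : ENNReal) := by
        rw [← Finset.mul_prod_erase Finset.univ _ (Finset.mem_univ i),
          ← Finset.mul_prod_erase Finset.univ
            (fun j => (((Function.update κ i (κ i - 1)) j).factorial : ENNReal)) (Finset.mem_univ i)]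
        rw [Function.update_self, ← mul_assoc]
        congr 1
        · have : (κ i).factorial = κ i * (κ i - 1).factorial :=
            (Nat.mul_factorial_pred h).symm
          rw [this]
          push_cast
          rfl
        · apply Finset.prod_congr rfl
          intro x hx
          rw [Function.update_of_ne (Finset.ne_of_mem_erase hx)]
      have e5 : ∏ j, (ν (C j)) ^ (κ j) =
          ν (C i) * ∏ j, (ν (C j)) ^ ((Function.update κ i (κ i - 1)) j) := by
        rw [← Finset.mul_prod_erase Finset.univ _ (Finset.mem_univ i),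
          ← Finset.mul_prod_erase Finset.univ
            (fun j => (ν (C j)) ^ ((Function.update κ i (κ i - 1)) j)) (Finset.mem_univ i)]
        rw [Function.update_self, ← mul_assoc]
        congr 1
        · rw [← pow_succ']
          congr 1
          omega
        · apply Finset.prod_congr rfl
          intro x hx
          rw [Function.update_of_ne (Finset.ne_of_mem_erase hx)]
      rw [e4, e5]
      calc _ = (κ i : ENNReal) * ν (C i) * (Measure.infinitePi (fun _ : ℕ => ν)
            {U | ∀ j, cnt (C j) n U = Function.update κ i (κ i - 1) j} *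
            ∏ j, (((Function.update κ i (κ i - 1)) j).factorial : ENNReal)) := by ring
        _ = _ := by rw [h2]; ring
    rw [Finset.sum_congr rfl h1, ← Finset.sum_mul, ← mul_assoc]
    congr 1
    rw [Nat.factorial_succ, ← hκ]
    push_cast
    rfl

lemma poi_mul_factorial (r : NNReal) (n : ℕ) :
    poissonMeasure r {n} * (n.factorial : ENNReal) = ENNReal.ofReal (Real.exp (-r)) * (r : ENNReal) ^ n := by
  rw [poissonMeasure_singleton]
  have h1 : (n.factorial : ENNReal) = ENNReal.ofReal (n.factorial : ℝ) := by simp
  have h2 : (r : ENNReal) ^ n = ENNReal.ofReal ((r : ℝ) ^ n) := by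
    rw [ENNReal.ofReal_pow r.coe_nonneg, ENNReal.ofReal_coe_nnreal]
  rw [h1, h2, ← ENNReal.ofReal_mul (by positivity), ← ENNReal.ofReal_mul (by positivity)]
  congr 1
  field_simp

/-- number of the first `w.1` points which are in `A` -/
def hits' (A : Set Y) (w : ℕ × (ℕ → Y)) : ℕ := cnt A w.1 w.2

lemma measurable_hits' {B : Set Y} (hB : MeasurableSet B) : Measurable (hits' B) := by
  apply measurable_from_prod_countable_right
  intro n
  exact measurable_cnt hB n

/-- splitting for a partition -/
lemma split_part (ν : Measure Y) [IsProbabilityMeasure ν] (l : NNReal) (C : ι → Set Y)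
    (hC : ∀ i, MeasurableSet (C i)) (hd : ∀ i j, i ≠ j → Disjoint (C i) (C j))
    (hu : ∀ y, ∃ i, y ∈ C i) :
    ((poissonMeasure l).prod (Measure.infinitePi fun _ : ℕ => ν)).map
      (fun w i => hits' (C i) w) = Measure.pi fun i => poissonMeasure (l * (ν (C i)).toNNReal) := by
  have hm : Measurable (fun (w : ℕ × (ℕ → Y)) i => hits' (C i) w) :=
    measurable_pi_lambda _ fun i => measurable_hits' (hC i)
  apply Measure.ext_of_singleton
  intro κ
  rw [Measure.map_apply hm (measurableSet_singleton _), Measure.pi_singleton]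
  have e : ((fun (w : ℕ × (ℕ → Y)) i => hits' (C i) w) ⁻¹' {κ}) =
      ({∑ i, κ i} : Set ℕ) ×ˢ {U | ∀ i, cnt (C i) (∑ i, κ i) U = κ i} := by
    ext ⟨n, U⟩
    simp only [Set.mem_preimage, Set.mem_singleton_iff, Set.mem_prod, Set.mem_ofPred_eq, funext_iff,
      hits']
    constructor
    · intro h
      have h1 := sum_cnt C hd hu n U
      have h2 : n = ∑ i, κ i := by
        rw [← h1]
        exact Finset.sum_congr rfl fun i _ => h i
      exact ⟨h2, h2 ▸ h⟩
    · rintro ⟨h1, h2⟩
      rw [h1]
      exact h2
  rw [e, Measure.prod_prod]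
  have hne : ∏ i, ((κ i).factorial : ENNReal) ≠ 0 := by
    rw [Finset.prod_ne_zero_iff]
    intro i _
    exact_mod_cast Nat.factorial_ne_zero _
  have hnt : ∏ i, ((κ i).factorial : ENNReal) ≠ ⊤ := by
    apply ENNReal.prod_ne_top
    intro i _
    exact ENNReal.natCast_ne_top _
  rw [← ENNReal.mul_left_inj hne hnt, mul_assoc, law_cnt ν C hC hd hu _ κ rfl, ← mul_assoc,
    poi_mul_factorial, ← Finset.prod_mul_distrib]
  have h3 : ∀ i, poissonMeasure (l * (ν (C i)).toNNReal) {κ i} * ((κ i).factorial : ENNReal) =
      ENNReal.ofReal (Real.exp (-(l * (ν (C i)).toNNReal : NNReal))) *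
        ((l : ENNReal) ^ (κ i) * (ν (C i)) ^ (κ i)) := by
    intro i
    rw [poi_mul_factorial]
    congr 1
    rw [ENNReal.coe_mul, ENNReal.coe_toNNReal (measure_ne_top ν _), mul_pow]
  simp only [h3]
  rw [Finset.prod_mul_distrib, Finset.prod_mul_distrib, Finset.prod_pow_eq_pow_sum, mul_assoc]
  congr 1
  rw [← ENNReal.ofReal_prod_of_nonneg (fun _ _ => (Real.exp_pos _).le), ← Real.exp_sum]
  congr 2
  rw [Finset.sum_neg_distrib]
  congr 1
  have h4 : ∑ i, ν (C i) = 1 := by
    have e1 := measure_iUnion (μ := ν) (fun i j hij => hd i j hij) hC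
    rw [tsum_fintype] at e1
    rw [← e1, ← measure_univ (μ := ν)]
    congr 1
    ext y
    simpa using hu y
  have h5 : ∑ i, (ν (C i)).toNNReal = 1 := by
    rw [← ENNReal.coe_inj]
    push_cast
    rw [← h4]
    apply Finset.sum_congr rfl
    intro i _
    rw [ENNReal.coe_toNNReal (measure_ne_top ν _)]
  have h6 : ∑ i, ((l * (ν (C i)).toNNReal : NNReal) : ℝ) = ((l * ∑ i, (ν (C i)).toNNReal : NNReal) : ℝ) := by
    rw [Finset.mul_sum]
    push_cast
    rfl
  rw [h6, h5, mul_one]

omit [Fintype ι] in
/-- splitting for disjoint sets -/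
lemma split_disj (ν : Measure Y) [IsProbabilityMeasure ν] (l : NNReal) (m : ℕ) (A : Fin m → Set Y)
    (hA : ∀ j, MeasurableSet (A j)) (hd : ∀ j j', j ≠ j' → Disjoint (A j) (A j')) :
    ((poissonMeasure l).prod (Measure.infinitePi fun _ : ℕ => ν)).map
      (fun w j => hits' (A j) w) = Measure.pi fun j => poissonMeasure (l * (ν (A j)).toNNReal) := by
  set C : Option (Fin m) → Set Y := fun o => match o with
    | none => (⋃ j, A j)ᶜ
    | some j => A j with hCdef
  have hC : ∀ o, MeasurableSet (C o) := by
    intro o
    cases o with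
    | none => exact (MeasurableSet.iUnion hA).compl
    | some j => exact hA j
  have hCd : ∀ o o', o ≠ o' → Disjoint (C o) (C o') := by
    intro o o' h
    cases o with
    | none =>
      cases o' with
      | none => exact absurd rfl h
      | some j =>
        rw [Set.disjoint_left]
        intro y hy hy'
        exact hy (Set.mem_iUnion.2 ⟨j, hy'⟩)
    | some j =>
      cases o' with
      | none =>
        rw [Set.disjoint_left]
        intro y hy hy'
        exact hy' (Set.mem_iUnion.2 ⟨j, hy⟩)
      | some j' => exact hd j j' (fun h' => h (by rw [h']))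
  have hCu : ∀ y, ∃ o, y ∈ C o := by
    intro y
    by_cases h : ∃ j, y ∈ A j
    · obtain ⟨j, hj⟩ := h
      exact ⟨some j, hj⟩
    · refine ⟨none, ?_⟩
      simp only [hCdef, Set.mem_compl_iff, Set.mem_iUnion]
      exact h
  have h1 := split_part ν l C hC hCd hCu
  have hm : Measurable (fun (w : ℕ × (ℕ → Y)) i => hits' (C i) w) :=
    measurable_pi_lambda _ fun i => measurable_hits' (hC i)
  have h2 : ((poissonMeasure l).prod (Measure.infinitePi fun _ : ℕ => ν)).map
      (fun w j => hits' (A j) w) =
      (((poissonMeasure l).prod (Measure.infinitePi fun _ : ℕ => ν)).map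
        (fun w i => hits' (C i) w)).map (fun x j => x (some j)) := by
    rw [Measure.map_map (measurable_pi_lambda _ fun j => measurable_pi_apply _) hm]
    rfl
  rw [h2, h1, ← Measure.infinitePi_eq_pi, ← Measure.infinitePi_eq_pi]
  exact Measure.map_infinitePi_infinitePi_of_inj (P := fun o => poissonMeasure (l * (ν (C o)).toNNReal))
    (f := fun j : Fin m => some j) (Option.some_injective _)

end

end Pool.Agent.H35.MC
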