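import Pool.Agent.H89.MC.Targets
import Pool.Agent.H35.MC.SPLcore

/-!
Module SPL of MP_5da387_pr: splitting of a Poisson variable.
-/

namespace Pool.Agent.H35.MC

open Classical MeasureTheory ProbabilityTheory
open Pool.Agent.H96.MC

noncomputable section

theorem t_SPL : T_SPL := by
  intro Y _ ν _ l m A hA hd
  exact ⟨fun B hB => measurable_hits' hB, split_disj ν l m A hA hd⟩

end

end Pool.Agent.H35.MC
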