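import Pool.Agent.H89.MC.Targets

/-!
Module UPA of MP_5da387_pr: the upper bound from the discrete form.
-/

namespace Pool.Agent.H35.MC

open Classical MeasureTheory ProbabilityTheory
open Pool.Agent.H96.MC

noncomputable section

variable {d q : ℕ}

lemma trF_injective (t : Sp d) : Function.Injective (trF t) := Finset.map_injective _

/-- the scheme -/
def mkScheme (hGOO : T_GOO) (hMTC : T_MTC) (hMEA : T_MEA) (hPOI : T_POI) (hMOT : T_MOT)
    (hIVS : T_IVS) (hd : 1 ≤ d) (D : Dat q) (μ : Measure (XX d q)) (hμ : IsProbabilityMeasure μ)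
    (h1 : μ.map Prod.fst = pois D d) (h2 : ∀ c, μ.map (shX c) = μ) (h3 : ∀ᵐ ω ∂μ, IsPerf D.V ω) :
    Scheme D.V D.lam d where
  Ω := Big d q
  P := bigLaw μ
  prob := ((hGOO d q D.V hd).2 μ hμ h3).1
  Pi := ptsB D.V
  M := matB D.V
  poisson := hPOI d q D μ hd hμ h1 h3
  meas := (hMEA d q D.V hd).2
  fam := by
    filter_upwards [((hGOO d q D.V hd).2 μ hμ h3).2] with ω hω
    exact (hMTC d q D.V ω hd hω).2.1
  part := by
    filter_upwards [((hGOO d q D.V hd).2 μ hμ h3).2] with ω hω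
    exact (hMTC d q D.V ω hd hω).2.2
  inv := by
    intro t k m S c B hS hB
    have hg2 : Measurable (fun ω : Big d q => ((fun a => (matB D.V ω ∩ S a).encard),
        (fun b => (ptsB D.V (c b) ω ∩ B b).encard))) := by
      apply Measurable.prodMk
      · exact measurable_pi_lambda _ fun a => (hMEA d q D.V hd).2 (S a) (hS a)
      · exact measurable_pi_lambda _ fun b => (hMEA d q D.V hd).1 (c b) (B b) (hB b)
    have hmot := hMOT d q μ t hμ h2
    have hae : (fun ω : Big d q => ((fun a => {F | F ∈ matB D.V ω ∧ trF t F ∈ S a}.encard),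
        (fun b => {x | x ∈ ptsB D.V (c b) ω ∧ x + t ∈ B b}.encard))) =ᵐ[bigLaw μ]
        (fun ω : Big d q => ((fun a => (matB D.V (mot t ω) ∩ S a).encard),
          (fun b => (ptsB D.V (c b) (mot t ω) ∩ B b).encard))) := by
      filter_upwards [((hGOO d q D.V hd).2 μ hμ h3).2] with ω hω
      obtain ⟨_, h5, h6⟩ := hIVS d q D.V t ω hd hω
      apply Prod.ext
      · funext a
        show {F | F ∈ matB D.V ω ∧ trF t F ∈ S a}.encard = (matB D.V (mot t ω) ∩ S a).encard
        rw [h5, ← (trF_injective t).encard_image]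
        congr 1
        ext F
        constructor
        · rintro ⟨F', ⟨h7, h8⟩, rfl⟩
          exact ⟨⟨F', h7, rfl⟩, h8⟩
        · rintro ⟨⟨F', h7, rfl⟩, h8⟩
          exact ⟨F', ⟨h7, h8⟩, rfl⟩
      · funext b
        show {x | x ∈ ptsB D.V (c b) ω ∧ x + t ∈ B b}.encard =
          (ptsB D.V (c b) (mot t ω) ∩ B b).encard
        rw [h6, ← (add_left_injective t).encard_image]
        congr 1
        ext x
        constructor
        · rintro ⟨y, ⟨h7, h8⟩, rfl⟩
          exact ⟨⟨y, h7, rfl⟩, h8⟩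
        · rintro ⟨⟨y, h7, rfl⟩, h8⟩
          exact ⟨y, ⟨h7, h8⟩, rfl⟩
    rw [Measure.map_congr hae]
    have : (fun ω : Big d q => ((fun a => (matB D.V (mot t ω) ∩ S a).encard),
          (fun b => (ptsB D.V (c b) (mot t ω) ∩ B b).encard))) =
        (fun ω : Big d q => ((fun a => (matB D.V ω ∩ S a).encard),
        (fun b => (ptsB D.V (c b) ω ∩ B b).encard))) ∘ (mot t) := rfl
    rw [this, ← Measure.map_map hg2 hmot.measurable, hmot.map_eq]

theorem t_UPA (hGOO : T_GOO) (hMTC : T_MTC) (hMEA : T_MEA) (hPOI : T_POI) (hMOT : T_MOT)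
    (hIVS : T_IVS) (hTLB : T_TLB) (hASY : T_ASY) : T_UPA := by
  intro hD d q D hd
  obtain ⟨μ, hμ, h1, h2, h3, h4⟩ := hD d q D hd
  refine ⟨mkScheme hGOO hMTC hMEA hPOI hMOT hIVS hd D μ hμ h1 h2 h3, ?_⟩
  intro ε hε
  have ht : Filter.Tendsto (fun r : ℝ => r - Real.sqrt d) Filter.atTop Filter.atTop :=
    Filter.tendsto_atTop_add_const_right _ _ Filter.tendsto_id
  filter_upwards [ht.eventually (h4 (ε / 2) (by positivity)),
    hASY (aconst D d) ε (Real.sqrt d) (2 ^ d) d hd hε (by positivity),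
    Filter.eventually_ge_atTop 0] with r hr1 hr2 hr3
  have h5 := hTLB d q D.V μ r hd hμ h2 h3 hr3
  calc _ ≤ 2 ^ d * ∫⁻ ω, (numFar (r - Real.sqrt d) ω : ENNReal) ∂μ := h5
    _ ≤ 2 ^ d * ENNReal.ofReal (Real.exp (-(aconst D d - ε / 2) * (r - Real.sqrt d) ^ d)) := by
        gcongr
    _ = ENNReal.ofReal (2 ^ d * Real.exp (-(aconst D d - ε / 2) * (r - Real.sqrt d) ^ d)) := by
        rw [ENNReal.ofReal_mul (by positivity)]
        congr 1
        rw [ENNReal.ofReal_pow (by norm_num)]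
        simp
    _ ≤ _ := ENNReal.ofReal_le_ofReal hr2

end

end Pool.Agent.H35.MC
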