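import Pool.Agent.H8.MC.Targets

/-!
# From a tiling of a square and a model of the grid to the rules
-/

set_option autoImplicit false

namespace Pool.Agent.H35.MC

open Pool.Agent.H8.MC Pool.Agent.H69.VR Pool.Agent.H8.VR Pool.Agent.H69.Sp
open Pool.Agent.H8.PL (GridF Z_GR Z_SQ)

section aux

variable {V : Type} {K : ℕ} {G : SimpleGraph V} {π : V → Option (Fin K × Fin K)}

/-- the colours -/
def cl (p : Fin K × Fin K) : ZMod 3 × ZMod 3 := ((p.1.val : ZMod 3), (p.2.val : ZMod 3))

/-- the colouring -/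
def col (π : V → Option (Fin K × Fin K)) (v : V) : Option (ZMod 3 × ZMod 3) := (π v).map cl

theorem col_some {v : V} {p : Fin K × Fin K} (h : π v = some p) : col π v = some (cl p) := by
  rw [col, h]
  rfl

theorem z3 : (1 : ZMod 3) ≠ 0 ∧ (2 : ZMod 3) ≠ 0 := by decide

theorem cl_ne {p q : Fin K × Fin K} (h : (grid K).Adj p q) : cl p ≠ cl q := by
  intro he
  have h1 : (p.1.val : ZMod 3) = (q.1.val : ZMod 3) := congrArg Prod.fst he
  have h2 : (p.2.val : ZMod 3) = (q.2.val : ZMod 3) := congrArg Prod.snd he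
  have key : ∀ a b : ℕ, (a : ZMod 3) = (b : ZMod 3) → a + 1 = b → False := by
    intro a b hab h3
    rw [← h3, Nat.cast_add, Nat.cast_one] at hab
    exact z3.1 (by linear_combination -hab)
  rcases h with ⟨-, h | h⟩ | ⟨-, h | h⟩
  · exact key _ _ h2 h
  · exact key _ _ h2.symm h
  · exact key _ _ h1 h
  · exact key _ _ h1.symm h

/-- the components -/
theorem cm_iff (hG : GMod K G π) {u : V} {p : Fin K × Fin K} (hu : π u = some p) (v : V) :
    Cm G (col π) u v ↔ π v = some p := by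
  constructor
  · intro h
    induction h with
    | refl => exact hu
    | @tail a b _ h2 ih =>
      obtain ⟨p', q', h3, h4, h5⟩ := hG.adj a b h2.1
      have h6 : p' = p := Option.some.inj (h3.symm.trans ih)
      subst h6
      rcases h5 with h5 | h5
      · rw [h4, h5]
      · have h7 := h2.2
        rw [col_some h3, col_some h4] at h7
        exact absurd (Option.some.inj h7) (cl_ne h5)
  · intro hv
    have h1 : (G.induce {v | π v = some p}).Reachable ⟨u, hu⟩ ⟨v, hv⟩ :=
      (hG.conn p).preconnected _ _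
    rw [SimpleGraph.reachable_iff_reflTransGen] at h1
    exact h1.lift (r := (G.induce {v | π v = some p}).Adj)
      (p := fun a b => G.Adj a b ∧ col π a = col π b) Subtype.val fun a b hab =>
      ⟨hab, (col_some a.2).trans (col_some b.2).symm⟩

/-- the step to the next column -/
theorem scE (hG : GMod K G π) {u v : V} {p q : Fin K × Fin K} (hu : π u = some p)
    (hv : π v = some q) : Sc G (col π) (1, 0) u v ↔ p.1.val + 1 = q.1.val ∧ p.2 = q.2 := by
  constructor
  · rintro ⟨a, b, c, h1, h2, h3, h4, h5⟩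
    rw [cm_iff hG hu] at h1
    rw [cm_iff hG hv] at h2
    obtain ⟨p', q', h6, h7, h8⟩ := hG.adj a b h3
    have hp : p' = p := Option.some.inj (h6.symm.trans h1)
    have hq : q' = q := Option.some.inj (h7.symm.trans h2)
    subst hp hq
    rw [col_some h1] at h4
    rw [col_some h2] at h5
    have h9 : cl q' = cl p' + (1, 0) := by
      rw [Option.some.inj h4]
      exact Option.some.inj h5
    have h10 : (q'.1.val : ZMod 3) = (p'.1.val : ZMod 3) + 1 := congrArg Prod.fst h9
    rcases h8 with rfl | (⟨h8, -⟩ | ⟨h8, h11 | h11⟩)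
    · exact absurd (by linear_combination -h10) z3.1
    · rw [h8] at h10
      exact absurd (by linear_combination -h10) z3.1
    · exact ⟨h11, h8⟩
    · rw [← h11, Nat.cast_add, Nat.cast_one] at h10
      exact absurd (by linear_combination -h10) z3.2
  · rintro ⟨h1, h2⟩
    obtain ⟨a, b, h3, h4, h5⟩ := hG.one p q (Or.inr ⟨h2, Or.inl h1⟩)
    refine ⟨a, b, cl p, (cm_iff hG hu a).2 h3, (cm_iff hG hv b).2 h4, h5, col_some h3, ?_⟩
    rw [col_some h4]
    congr 1
    refine Prod.ext ?_ ?_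
    · show (q.1.val : ZMod 3) = (p.1.val : ZMod 3) + 1
      rw [← h1, Nat.cast_add, Nat.cast_one]
    · show (q.2.val : ZMod 3) = (p.2.val : ZMod 3) + 0
      rw [h2, add_zero]

/-- the step to the next row -/
theorem scN (hG : GMod K G π) {u v : V} {p q : Fin K × Fin K} (hu : π u = some p)
    (hv : π v = some q) : Sc G (col π) (0, 1) u v ↔ p.1 = q.1 ∧ p.2.val + 1 = q.2.val := by
  constructor
  · rintro ⟨a, b, c, h1, h2, h3, h4, h5⟩
    rw [cm_iff hG hu] at h1
    rw [cm_iff hG hv] at h2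
    obtain ⟨p', q', h6, h7, h8⟩ := hG.adj a b h3
    have hp : p' = p := Option.some.inj (h6.symm.trans h1)
    have hq : q' = q := Option.some.inj (h7.symm.trans h2)
    subst hp hq
    rw [col_some h1] at h4
    rw [col_some h2] at h5
    have h9 : cl q' = cl p' + (0, 1) := by
      rw [Option.some.inj h4]
      exact Option.some.inj h5
    have h10 : (q'.2.val : ZMod 3) = (p'.2.val : ZMod 3) + 1 := congrArg Prod.snd h9
    rcases h8 with rfl | (⟨h8, h11 | h11⟩ | ⟨h8, -⟩)
    · exact absurd (by linear_combination -h10) z3.1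
    · exact ⟨h8, h11⟩
    · rw [← h11, Nat.cast_add, Nat.cast_one] at h10
      exact absurd (by linear_combination -h10) z3.2
    · rw [h8] at h10
      exact absurd (by linear_combination -h10) z3.1
  · rintro ⟨h1, h2⟩
    obtain ⟨a, b, h3, h4, h5⟩ := hG.one p q (Or.inl ⟨h1, Or.inl h2⟩)
    refine ⟨a, b, cl p, (cm_iff hG hu a).2 h3, (cm_iff hG hv b).2 h4, h5, col_some h3, ?_⟩
    rw [col_some h4]
    congr 1
    refine Prod.ext ?_ ?_
    · show (q.1.val : ZMod 3) = (p.1.val : ZMod 3) + 0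
      rw [h1, add_zero]
    · show (q.2.val : ZMod 3) = (p.2.val : ZMod 3) + 1
      rw [← h2, Nat.cast_add, Nat.cast_one]

/-- the labels -/
def lab (π : V → Option (Fin K × Fin K)) (v : V) : Lc := match π v with
  | some p => ⟨decide (p.1.val = 0), decide (p.1.val + 1 = K), decide (p.2.val = 0),
      decide (p.2.val + 1 = K)⟩
  | none => ⟨false, false, false, false⟩

theorem lab_some {v : V} {p : Fin K × Fin K} (h : π v = some p) : lab π v =
    ⟨decide (p.1.val = 0), decide (p.1.val + 1 = K), decide (p.2.val = 0),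
      decide (p.2.val + 1 = K)⟩ := by
  rw [lab, h]

/-- the tiles -/
def til {Q : Type} (t : ℕ → ℕ → Q) (π : V → Option (Fin K × Fin K)) (v : V) : Q := match π v with
  | some p => t p.1.val p.2.val
  | none => t 0 0

theorem til_some {Q : Type} (t : ℕ → ℕ → Q) {v : V} {p : Fin K × Fin K} (h : π v = some p) :
    til t π v = t p.1.val p.2.val := by
  rw [til, h]

end aux

theorem pf_WTI : Pool.Agent.H8.MC.T_WTI := by
  intro Q U Hh Vv K V G π hK hG ht
  obtain ⟨t, ht1, ht2, ht3⟩ := ht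
  have hex : ∀ p, ∃ v, π v = some p := fun p => by
    obtain ⟨v⟩ := (hG.conn p).nonempty
    exact ⟨v.1, v.2⟩
  choose rep hrep using hex
  have hinj : Function.Injective rep := fun p q h => by
    have h1 := hrep p
    rw [h, hrep q] at h1
    exact (Option.some.inj h1).symm
  obtain ⟨rp, hrp⟩ : ∃ rp : V → Prop, rp = fun v => ∃ p, v = rep p := ⟨_, rfl⟩
  have hrpp : ∀ p, rp (rep p) := fun p => by rw [hrp]; exact ⟨p, rfl⟩
  have hrpe : ∀ v, rp v → ∃ p, v = rep p := fun v h => by rw [hrp] at h; exact h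
  have hE : ∀ p q, Ec G (col π) rp (rep p) (rep q) ↔ p.1.val + 1 = q.1.val ∧ p.2 = q.2 :=
    fun p q => ⟨fun h => (scE hG (hrep p) (hrep q)).1 h.2.2,
      fun h => ⟨hrpp p, hrpp q, (scE hG (hrep p) (hrep q)).2 h⟩⟩
  have hN : ∀ p q, Nc G (col π) rp (rep p) (rep q) ↔ p.1 = q.1 ∧ p.2.val + 1 = q.2.val :=
    fun p q => ⟨fun h => (scN hG (hrep p) (hrep q)).1 h.2.2,
      fun h => ⟨hrpp p, hrpp q, (scN hG (hrep p) (hrep q)).2 h⟩⟩
  have hE' : ∀ x y, Ec G (col π) rp x y → ∃ p q, x = rep p ∧ y = rep q ∧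
      p.1.val + 1 = q.1.val ∧ p.2 = q.2 := by
    intro x y h
    obtain ⟨p, rfl⟩ := hrpe _ h.1
    obtain ⟨q, rfl⟩ := hrpe _ h.2.1
    exact ⟨p, q, rfl, rfl, (hE p q).1 h⟩
  have hN' : ∀ x y, Nc G (col π) rp x y → ∃ p q, x = rep p ∧ y = rep q ∧
      p.1 = q.1 ∧ p.2.val + 1 = q.2.val := by
    intro x y h
    obtain ⟨p, rfl⟩ := hrpe _ h.1
    obtain ⟨q, rfl⟩ := hrpe _ h.2.1
    exact ⟨p, q, rfl, rfl, (hN p q).1 h⟩
  refine ⟨col π, rp, lab π, til t π, ?_, ?_⟩
  · constructor
    · intro x y h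
      obtain ⟨p, q, rfl, rfl, h1, h2⟩ := hE' x y h
      rw [lab_some (hrep p), lab_some (hrep q)]
      have h3 := q.1.isLt
      refine ⟨decide_eq_false (by omega), decide_eq_false (by omega), ?_, ?_⟩
      · show decide (p.2.val = 0) = decide (q.2.val = 0)
        rw [h2]
      · show decide (p.2.val + 1 = K) = decide (q.2.val + 1 = K)
        rw [h2]
    · intro x y h
      obtain ⟨p, q, rfl, rfl, h1, h2⟩ := hN' x y h
      rw [lab_some (hrep p), lab_some (hrep q)]
      have h3 := q.2.isLt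
      refine ⟨decide_eq_false (by omega), decide_eq_false (by omega), ?_, ?_⟩
      · show decide (p.1.val = 0) = decide (q.1.val = 0)
        rw [h1]
      · show decide (p.1.val + 1 = K) = decide (q.1.val + 1 = K)
        rw [h1]
    · intro x y y' h h'
      obtain ⟨p, q, rfl, rfl, h1, h2⟩ := hE' x y h
      obtain ⟨p', q', h3, rfl, h4, h5⟩ := hE' _ y' h'
      have h6 := hinj h3
      subst h6
      congr 1
      exact Prod.ext (Fin.ext (by omega)) (h2.symm.trans h5)
    · intro x x' y h h'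
      obtain ⟨p, q, rfl, rfl, h1, h2⟩ := hE' x y h
      obtain ⟨p', q', rfl, h3, h4, h5⟩ := hE' x' _ h'
      have h6 := hinj h3
      subst h6
      congr 1
      exact Prod.ext (Fin.ext (by omega)) (h2.trans h5.symm)
    · intro x y y' h h'
      obtain ⟨p, q, rfl, rfl, h1, h2⟩ := hN' x y h
      obtain ⟨p', q', h3, rfl, h4, h5⟩ := hN' _ y' h'
      have h6 := hinj h3
      subst h6
      congr 1
      exact Prod.ext (h1.symm.trans h4) (Fin.ext (by omega))
    · intro x x' y h h'
      obtain ⟨p, q, rfl, rfl, h1, h2⟩ := hN' x y h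
      obtain ⟨p', q', rfl, h3, h4, h5⟩ := hN' x' _ h'
      have h6 := hinj h3
      subst h6
      congr 1
      exact Prod.ext (h1.trans h4.symm) (Fin.ext (by omega))
    · intro x hx hr
      obtain ⟨p, rfl⟩ := hrpe _ hx
      rw [lab_some (hrep p)] at hr
      have h1 : p.1.val + 1 ≠ K := of_decide_eq_false hr
      have h2 := p.1.isLt
      exact ⟨rep (⟨p.1.val + 1, by omega⟩, p.2), (hE _ _).2 ⟨rfl, rfl⟩⟩
    · intro x hx hr
      obtain ⟨p, rfl⟩ := hrpe _ hx
      rw [lab_some (hrep p)] at hr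
      have h1 : p.2.val + 1 ≠ K := of_decide_eq_false hr
      have h2 := p.2.isLt
      exact ⟨rep (p.1, ⟨p.2.val + 1, by omega⟩), (hN _ _).2 ⟨rfl, rfl⟩⟩
    · refine ⟨rep (⟨0, hK⟩, ⟨0, hK⟩), hrpp _, ?_, ?_⟩
      · rw [lab_some (hrep _)]
        exact decide_eq_true (show (0 : ℕ) = 0 from rfl)
      · rw [lab_some (hrep _)]
        exact decide_eq_true (show (0 : ℕ) = 0 from rfl)
    · intro x y z h h'
      obtain ⟨p, q, rfl, rfl, h1, h2⟩ := hE' x y h
      obtain ⟨p', s, h3, rfl, h4, h5⟩ := hN' _ z h'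
      have h6 := hinj h3
      subst h6
      refine ⟨rep (q.1, s.2), (hE _ _).2 ⟨?_, rfl⟩, (hN _ _).2 ⟨rfl, ?_⟩⟩
      · show s.1.val + 1 = q.1.val
        rw [← h4, h1]
      · show q.2.val + 1 = s.2.val
        rw [← h2, h5]
    · intro Y hY hcl
      have hi : ∀ (j : Fin K) (i : ℕ) (hi : i < K), rep (⟨i, hi⟩, j) ∈ Y ↔
          rep (⟨0, hK⟩, j) ∈ Y := by
        intro j i
        induction i with
        | zero => intro _; exact Iff.rfl
        | succ i ih =>
          intro hi
          exact (hcl _ _ (Or.inl ((hE (⟨i, by omega⟩, j) (⟨i + 1, hi⟩, j)).2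
            ⟨rfl, rfl⟩))).symm.trans (ih (by omega))
      have hj : ∀ (j : ℕ) (hj : j < K), rep (⟨0, hK⟩, ⟨j, hj⟩) ∈ Y ↔
          rep (⟨0, hK⟩, ⟨0, hK⟩) ∈ Y := by
        intro j
        induction j with
        | zero => intro _; exact Iff.rfl
        | succ j ih =>
          intro hj
          exact (hcl _ _ (Or.inr ((hN (⟨0, hK⟩, ⟨j, by omega⟩) (⟨0, hK⟩, ⟨j + 1, hj⟩)).2
            ⟨rfl, rfl⟩))).symm.trans (ih (by omega))
      have hall : ∀ p, rep p ∈ Y ↔ rep (⟨0, hK⟩, ⟨0, hK⟩) ∈ Y := fun p =>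
        (hi p.2 p.1.val p.1.isLt).trans (hj p.2.val p.2.isLt)
      obtain ⟨x, hxY, hx⟩ := hY
      obtain ⟨p, rfl⟩ := hrpe _ hx
      intro y hy
      obtain ⟨q, rfl⟩ := hrpe _ hy
      exact (hall q).2 ((hall p).1 hxY)
    · intro x hx
      obtain ⟨p, rfl⟩ := hrpe _ hx
      rw [lab_some (hrep p), til_some t (hrep p)]
      exact ht1 p.1.val p.1.isLt p.2.val p.2.isLt
    · intro x y h
      obtain ⟨p, q, rfl, rfl, h1, h2⟩ := hE' x y h
      rw [til_some t (hrep p), til_some t (hrep q), ← h1, ← h2]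
      exact ht2 _ _ (by rw [h1]; exact q.1.isLt) p.2.isLt
    · intro x y h
      obtain ⟨p, q, rfl, rfl, h1, h2⟩ := hN' x y h
      rw [til_some t (hrep p), til_some t (hrep q), ← h1, ← h2]
      exact ht3 _ _ p.1.isLt (by rw [h2]; exact q.2.isLt)
  · have h1 : Function.Bijective (fun p : Fin K × Fin K => (⟨rep p, hrpp p⟩ : {x // rp x})) := by
      constructor
      · intro p q h
        exact hinj (congrArg Subtype.val h)
      · rintro ⟨x, hx⟩
        obtain ⟨p, rfl⟩ := hrpe _ hx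
        exact ⟨p, rfl⟩
    rw [← Nat.card_congr (Equiv.ofBijective _ h1), Nat.card_prod, Nat.card_fin, sq]

end Pool.Agent.H35.MC
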